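import Pool.Agent.Helper30_SkewP4.Stmts

/-!
# LAM (MP_d1c004_ag): passage to the model
-/

set_option autoImplicit false

open scoped Matrix
open Matrix MvPolynomial

namespace Pool.Agent.SkewP4.H85

variable {Λ : Type} [Ring Λ] [Algebra ℂ Λ] {M : Model Λ} {n : ℕ}

theorem central {a : Λ} (ha : a ∈ M.G 0 0) (b : Λ) : a * b = b * a := by
  refine M.comm_even a b ?_
  have := M.s_G 0 0 a ha
  simpa using this

theorem mul00 {a b : Λ} (ha : a ∈ M.G 0 0) (hb : b ∈ M.G 0 0) : a * b ∈ M.G 0 0 :=
  M.mul_mem 0 0 0 0 a b ha hb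

omit [Algebra ℂ Λ] in
/-- scalars move to the left -/
theorem mul_smul' (B N : Matrix (Fin n) (Fin n) Λ) (c : Λ) (h : ∀ a b, B a b * c = c * B a b) :
    B * (c • N) = c • (B * N) := by
  ext a b
  rw [Matrix.mul_apply, Matrix.smul_apply, Matrix.mul_apply, smul_eq_mul, Finset.mul_sum]
  refine Finset.sum_congr rfl fun e _ => ?_
  rw [Matrix.smul_apply, smul_eq_mul, ← mul_assoc, h, mul_assoc]

/-- combination of polynomial matrices -/
noncomputable def comb (M : Model Λ) (η : Fin 5 → Λ) (B : Fin 5 → Matrix (Fin n) (Fin n) S) :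
    Matrix (Fin n) (Fin n) Λ :=
  ∑ j, η j • (B j).map M.inc

theorem comb_apply (η : Fin 5 → Λ) (B : Fin 5 → Matrix (Fin n) (Fin n) S) (a b : Fin n) :
    comb M η B a b = ∑ j, η j * M.inc (B j a b) := by
  rw [comb, Matrix.sum_apply]
  rfl

theorem comb_mul (η : Fin 5 → Λ) (B : Fin 5 → Matrix (Fin n) (Fin n) S)
    (C : Matrix (Fin n) (Fin n) S) : comb M η B * C.map M.inc = comb M η (fun j => B j * C) := by
  rw [comb, Matrix.sum_mul]
  refine Finset.sum_congr rfl fun j _ => ?_
  rw [Matrix.smul_mul, Matrix.map_mul]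

theorem mul_comb (η : Fin 5 → Λ) (hη : ∀ j, η j ∈ M.G 0 0) (B : Fin 5 → Matrix (Fin n) (Fin n) S)
    (C : Matrix (Fin n) (Fin n) S) : C.map M.inc * comb M η B = comb M η (fun j => C * B j) := by
  rw [comb, Matrix.mul_sum]
  refine Finset.sum_congr rfl fun j _ => ?_
  rw [mul_smul' _ _ _ (fun a b => (central (hη j) _).symm), Matrix.map_mul]

theorem comb_sub (η : Fin 5 → Λ) (B B' : Fin 5 → Matrix (Fin n) (Fin n) S) :
    comb M η (fun j => B j - B' j) = comb M η B - comb M η B' := by
  ext a b
  rw [Matrix.sub_apply, comb_apply, comb_apply, comb_apply, ← Finset.sum_sub_distrib]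
  refine Finset.sum_congr rfl fun j _ => ?_
  rw [Matrix.sub_apply, map_sub, mul_sub]

theorem comb_pow (η : Fin 5 → Λ) (hη : ∀ j, η j ∈ M.G 0 0) (N : ℕ)
    (h1 : ∑ j, M.inc (X j) ^ N * η j = 1) (C : Matrix (Fin n) (Fin n) S) :
    comb M η (fun j => (X j : S) ^ N • C) = C.map M.inc := by
  ext a b
  rw [comb_apply, Matrix.map_apply]
  have : ∀ j, η j * M.inc (((X j : S) ^ N • C) a b) = M.inc (X j) ^ N * η j * M.inc (C a b) := by
    intro j
    rw [Matrix.smul_apply, smul_eq_mul, map_mul, map_pow, ← mul_assoc, central (hη j)]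
  rw [Finset.sum_congr rfl fun j _ => this j, ← Finset.sum_mul, h1, one_mul]

theorem lam (heta : EtaStmt) : LamStmt := by
  intro Λ _ _ M n A W
  obtain ⟨η, hη, h1⟩ := heta Λ M W.N
  have hinc : ∀ f, M.inc f ∈ M.G 0 0 := M.inc_mem
  have hmem : ∀ (B : Fin 5 → Matrix (Fin n) (Fin n) S) (a b : Fin n), comb M η B a b ∈ M.G 0 0 := by
    intro B a b
    rw [comb_apply]
    exact sum_mem fun j _ => mul00 (hη j) (hinc _)
  have hgT : (genMat A)ᵀ = -genMat A := by
    rw [genMat, Matrix.transpose_sum, ← Finset.sum_neg_distrib]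
    refine Finset.sum_congr rfl fun j _ => ?_
    rw [Matrix.transpose_smul, Matrix.transpose_map.symm, W.skew j]
    refine Matrix.ext fun a b => ?_
    simp
  have hQA : comb M η W.Q * (genMat A).map M.inc = comb M η (fun j => W.Q j * genMat A) :=
    comb_mul η _ _
  have hAQ : (genMat A).map M.inc * comb M η W.Q = comb M η (fun j => genMat A * W.Q j) :=
    mul_comb η hη _ _
  have hone : (1 : Matrix (Fin n) (Fin n) Λ) = comb M η (fun j => (X j : S) ^ W.N • 1) := by
    rw [comb_pow η hη W.N h1, Matrix.map_one _ (map_zero _) (map_one _)]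
  have hP : 1 - comb M η W.Q * (genMat A).map M.inc =
      comb M η (fun j => (X j : S) ^ W.N • 1 - W.Q j * genMat A) := by
    rw [comb_sub, hQA, ← hone]
  have hP' : 1 - (genMat A).map M.inc * comb M η W.Q =
      comb M η (fun j => (X j : S) ^ W.N • 1 - genMat A * W.Q j) := by
    rw [comb_sub, hAQ, ← hone]
  -- the skew form
  have hg : ∀ (i k : Fin 5) (c e : Fin n), ∃ g : S, ∀ a b,
      ((X i : S) ^ W.N • 1 - W.Q i * genMat A) a c * ((X k : S) ^ W.N • 1 - W.Q k * genMat A) b e -
      ((X k : S) ^ W.N • 1 - W.Q k * genMat A) a e * ((X i : S) ^ W.N • 1 - W.Q i * genMat A) b c =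
      g * W.pi a b := by
    intro i k c e
    have hk : ∀ i c, genMat A *ᵥ (fun a => ((X i : S) ^ W.N • 1 - W.Q i * genMat A) a c) = 0 := by
      intro i c
      have h2 : genMat A * ((X i : S) ^ W.N • 1 - W.Q i * genMat A) = 0 := by
        rw [Matrix.mul_sub, Matrix.mul_smul, Matrix.mul_one, ← Matrix.mul_assoc, W.AQA, sub_self]
      funext a
      have := congrFun (congrFun h2 a) c
      rw [Matrix.mul_apply] at this
      exact this
    exact W.wedge _ _ (hk i c) (hk k e)
  choose g hg using hg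
  let eps0 : Matrix (Fin n) (Fin n) Λ := Matrix.of fun c e =>
    ∑ i, ∑ k, η i * η k * M.inc (g i k c e)
  have heps0 : ∀ c e, eps0 c e ∈ M.G 0 0 := by
    intro c e
    show (∑ i, ∑ k, η i * η k * M.inc (g i k c e)) ∈ M.G 0 0
    exact sum_mem fun i _ => sum_mem fun k _ => mul00 (mul00 (hη i) (hη k)) (hinc _)
  have hw0 : ∀ a b c e,
      comb M η (fun j => (X j : S) ^ W.N • 1 - W.Q j * genMat A) a c *
        comb M η (fun j => (X j : S) ^ W.N • 1 - W.Q j * genMat A) b e -
      comb M η (fun j => (X j : S) ^ W.N • 1 - W.Q j * genMat A) a e *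
        comb M η (fun j => (X j : S) ^ W.N • 1 - W.Q j * genMat A) b c =
      M.inc (W.pi a b) * eps0 c e := by
    intro a b c e
    set B : Fin 5 → Matrix (Fin n) (Fin n) S :=
      fun j => (X j : S) ^ W.N • 1 - W.Q j * genMat A with hB
    have e1 : comb M η B a c * comb M η B b e =
        ∑ i, ∑ k, η i * η k * M.inc (B i a c * B k b e) := by
      rw [comb_apply, comb_apply, Finset.sum_mul]
      refine Finset.sum_congr rfl fun i _ => ?_
      rw [Finset.mul_sum]
      refine Finset.sum_congr rfl fun k _ => ?_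
      rw [map_mul]
      calc η i * M.inc (B i a c) * (η k * M.inc (B k b e))
          = η i * (M.inc (B i a c) * η k) * M.inc (B k b e) := by noncomm_ring
        _ = η i * (η k * M.inc (B i a c)) * M.inc (B k b e) := by rw [central (hinc _) (η k)]
        _ = _ := by noncomm_ring
    have e2 : comb M η B a e * comb M η B b c =
        ∑ i, ∑ k, η i * η k * M.inc (B k a e * B i b c) := by
      rw [comb_apply, comb_apply, Finset.sum_mul, Finset.sum_comm]
      have : ∀ k, η k * M.inc (B k a e) * ∑ i, η i * M.inc (B i b c) =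
          ∑ i, η i * η k * M.inc (B k a e * B i b c) := by
        intro k
        rw [Finset.mul_sum]
        refine Finset.sum_congr rfl fun i _ => ?_
        rw [map_mul]
        calc η k * M.inc (B k a e) * (η i * M.inc (B i b c))
            = η k * (M.inc (B k a e) * η i) * M.inc (B i b c) := by noncomm_ring
          _ = (η k * η i) * M.inc (B k a e) * M.inc (B i b c) := by
              rw [central (hinc _) (η i)]; noncomm_ring
          _ = _ := by rw [central (hη k) (η i)]; noncomm_ring
      exact Finset.sum_congr rfl fun k _ => this k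
    rw [e1, e2, ← Finset.sum_sub_distrib]
    show _ = M.inc (W.pi a b) * ∑ i, ∑ k, η i * η k * M.inc (g i k c e)
    rw [Finset.mul_sum]
    refine Finset.sum_congr rfl fun i _ => ?_
    rw [← Finset.sum_sub_distrib, Finset.mul_sum]
    refine Finset.sum_congr rfl fun k _ => ?_
    rw [← mul_sub, ← map_sub, hg i k c e a b, map_mul, central (hinc (W.pi a b))]
    noncomm_ring
  let D : Matrix (Fin n) (Fin n) Λ := ∑ j, M.dx j • ((A j).map (C : ℂ →+* S)).map M.inc
  have hDapp : ∀ a b, D a b = ∑ j, (A j a b) • M.dx j := by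
    intro a b
    show (∑ j, M.dx j • ((A j).map (C : ℂ →+* S)).map M.inc) a b = _
    rw [Matrix.sum_apply]
    refine Finset.sum_congr rfl fun j _ => ?_
    rw [Matrix.smul_apply, Matrix.map_apply, Matrix.map_apply, smul_eq_mul, ← algebraMap_eq,
      AlgHom.commutes, ← Algebra.commutes, Algebra.smul_def]
  have hAinc : ∀ a b, M.inc (genMat A a b) = ∑ j, (A j a b) • M.inc (X j) := by
    intro a b
    rw [genMat, Matrix.sum_apply, map_sum]
    refine Finset.sum_congr rfl fun j _ => ?_
    rw [Matrix.smul_apply, Matrix.map_apply, smul_eq_mul, map_mul, ← algebraMap_eq,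
      AlgHom.commutes, ← Algebra.commutes, Algebra.smul_def]
  refine ⟨{
    A := (genMat A).map M.inc
    D := D
    Q := comb M η W.Q
    pi := W.pi.map M.inc
    eps := (2 : ℂ)⁻¹ • (eps0 - eps0ᵀ)
    A_mem := fun a b => hinc _
    D_mem := ?_
    Q_mem := hmem _
    pi_mem := fun a b => hinc _
    eps_mem := ?_
    dA := ?_
    dD := ?_
    dpi := ?_
    iD := ?_
    A_skew := ?_
    D_skew := ?_
    Q_skew := ?_
    pi_skew := ?_
    eps_skew := ?_
    AQA := ?_
    iso := ?_
    trQA := ?_
    A_pi := ?_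
    wedge := ?_ }⟩
  · intro a b
    rw [hDapp]
    exact sum_mem fun j _ => Submodule.smul_mem _ _ (M.dx_mem j)
  · intro a b
    exact Submodule.smul_mem _ _ (sub_mem (heps0 a b) (heps0 b a))
  · ext a b
    exact M.d_inc _
  · ext a b
    rw [Matrix.map_apply, hDapp, map_sum, Matrix.zero_apply]
    refine Finset.sum_eq_zero fun j _ => ?_
    rw [map_smul, M.d_dx, smul_zero]
  · ext a b
    exact M.d_inc _
  · ext a b
    rw [Matrix.map_apply, hDapp, map_sum, Matrix.map_apply, hAinc]
    refine Finset.sum_congr rfl fun j _ => ?_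
    rw [map_smul, M.i_dx]
  · rw [Matrix.transpose_map.symm, hgT]
    ext a b
    simp
  · ext a b
    rw [Matrix.transpose_apply, Matrix.neg_apply, hDapp, hDapp, ← Finset.sum_neg_distrib]
    refine Finset.sum_congr rfl fun j _ => ?_
    have := congrFun (congrFun (W.skew j) a) b
    rw [Matrix.transpose_apply, Matrix.neg_apply] at this
    rw [this, neg_smul]
  · ext a b
    rw [Matrix.transpose_apply, Matrix.neg_apply, comb_apply, comb_apply,
      ← Finset.sum_neg_distrib]
    refine Finset.sum_congr rfl fun j _ => ?_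
    have := congrFun (congrFun (W.Q_skew j) a) b
    rw [Matrix.transpose_apply, Matrix.neg_apply] at this
    rw [this, map_neg, mul_neg]
  · rw [Matrix.transpose_map.symm, W.pi_skew]
    ext a b
    simp
  · rw [Matrix.transpose_smul, Matrix.transpose_sub, Matrix.transpose_transpose, ← smul_neg,
      neg_sub]
  · rw [hAQ, comb_mul]
    have : (fun j => genMat A * W.Q j * genMat A) = fun j => (X j : S) ^ W.N • genMat A := by
      funext j
      exact W.AQA j
    rw [this, comb_pow η hη W.N h1]
  · rw [hP, hP', comb, comb]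
    show (∑ j, η j • ((X j : S) ^ W.N • 1 - genMat A * W.Q j).map M.inc) *
      (∑ j, M.dx j • ((A j).map (C : ℂ →+* S)).map M.inc) *
      (∑ j, η j • ((X j : S) ^ W.N • 1 - W.Q j * genMat A).map M.inc) = 0
    rw [Matrix.mul_sum]
    refine Finset.sum_eq_zero fun k _ => ?_
    rw [Matrix.sum_mul, Matrix.sum_mul]
    refine Finset.sum_eq_zero fun i _ => ?_
    rw [Matrix.mul_sum, Matrix.sum_mul]
    refine Finset.sum_eq_zero fun j _ => ?_
    have q1 : ∀ B N : Matrix (Fin n) (Fin n) S, B.map M.inc * M.dx j • N.map M.inc =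
        M.dx j • (B.map M.inc * N.map M.inc) := fun B N =>
      mul_smul' _ _ _ (fun a b => central (hinc _) _)
    have q2 : ∀ B N : Matrix (Fin n) (Fin n) S, B.map M.inc * η k • N.map M.inc =
        η k • (B.map M.inc * N.map M.inc) := fun B N =>
      mul_smul' _ _ _ (fun a b => central (hinc _) _)
    rw [Matrix.smul_mul, q1, Matrix.smul_mul, Matrix.smul_mul, ← Matrix.map_mul, q2,
      ← Matrix.map_mul, W.iso i j k]
    refine Matrix.ext fun a b => ?_
    simp
  · rw [hQA, Matrix.trace]
    have e1 : ∀ a : Fin n, (comb M η (fun j => W.Q j * genMat A)).diag a =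
        ∑ j, η j * M.inc ((W.Q j * genMat A) a a) := fun a => comb_apply _ _ _ _
    rw [Finset.sum_congr rfl fun a _ => e1 a, Finset.sum_comm]
    have e2 : ∀ j, ∑ a, η j * M.inc ((W.Q j * genMat A) a a) =
        M.inc (X j) ^ W.N * η j * algebraMap ℂ Λ ((n : ℂ) - 2) := by
      intro j
      rw [← Finset.mul_sum, ← map_sum]
      have e3 : ∑ a, (W.Q j * genMat A) a a = ((n : S) - 2) * (X j : S) ^ W.N := W.trQA j
      have e4 : M.inc ((n : S) - 2) = algebraMap ℂ Λ ((n : ℂ) - 2) := by
        rw [map_sub, map_sub, map_natCast, map_natCast, map_ofNat, map_ofNat]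
      rw [e3, map_mul, map_pow, e4, central (hη j), mul_assoc]
      exact Algebra.commutes _ _
    rw [Finset.sum_congr rfl fun j _ => e2 j, ← Finset.sum_mul, h1, one_mul]
  · rw [← Matrix.map_mul, W.A_pi]
    ext a b
    simp
  · intro a b c e
    rw [hP]
    have h2 := hw0 a b c e
    have h3 := hw0 a b e c
    rw [h2]
    show _ = M.inc (W.pi a b) * ((2 : ℂ)⁻¹ • (eps0 c e - eps0 e c))
    have h4 : M.inc (W.pi a b) * eps0 e c = -(M.inc (W.pi a b) * eps0 c e) := by
      rw [← h2, ← h3, neg_sub]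
    rw [mul_smul_comm, mul_sub, h4, sub_neg_eq_add, ← two_smul ℂ, smul_smul,
      inv_mul_cancel₀ two_ne_zero, one_smul]

end Pool.Agent.SkewP4.H85
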