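import Pool.Agent.Helper30_SkewP4.Stmts

/-!
# BLK (MP_d1c004_ag): local polynomial pseudo inverses
-/

set_option autoImplicit false

open scoped Matrix
open Matrix

namespace Pool.Agent.SkewP4.H85

/-- selection matrix -/
def sel {n : Type} [DecidableEq n] (R : Type) [CommRing R] {I : Type} (f : I → n) : Matrix n I R :=
  (1 : Matrix n n R).submatrix id f

section field

variable {K : Type} [Field K] {n I : Type} [Fintype n] [DecidableEq n] [Fintype I] [DecidableEq I]

/-- Schur complement vanishes if the rank is small -/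
theorem schur (M : Matrix n n K) (f : I → n) (hdet : ((sel K f)ᵀ * M * sel K f).det ≠ 0)
    (hrk : M.rank ≤ Fintype.card I) :
    M = M * sel K f * ((sel K f)ᵀ * M * sel K f)⁻¹ * ((sel K f)ᵀ * M) := by
  set E := sel K f with hE
  set a := Eᵀ * M * E with ha
  have hua : IsUnit a.det := isUnit_iff_ne_zero.2 hdet
  have h1 : Eᵀ * M * (1 - E * a⁻¹ * (Eᵀ * M)) = 0 := by
    have e : Eᵀ * M * (E * a⁻¹ * (Eᵀ * M)) = Eᵀ * M * E * a⁻¹ * (Eᵀ * M) := by
      simp only [Matrix.mul_assoc]
    rw [Matrix.mul_sub, Matrix.mul_one, e, ← ha,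
      Matrix.mul_nonsing_inv a hua, Matrix.one_mul, sub_self]
  have hle : LinearMap.ker M.mulVecLin ≤ LinearMap.ker (Eᵀ * M).mulVecLin := by
    intro v hv
    rw [LinearMap.mem_ker, mulVecLin_apply] at hv ⊢
    rw [← Matrix.mulVec_mulVec, hv, Matrix.mulVec_zero]
  have hsurj : LinearMap.range (Eᵀ * M).mulVecLin = ⊤ := by
    rw [LinearMap.range_eq_top]
    intro w
    refine ⟨(E * a⁻¹) *ᵥ w, ?_⟩
    rw [mulVecLin_apply, Matrix.mulVec_mulVec, ← Matrix.mul_assoc, ← ha,
      Matrix.mul_nonsing_inv a hua, Matrix.one_mulVec]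
  have hfin : Module.finrank K (LinearMap.ker (Eᵀ * M).mulVecLin) ≤
      Module.finrank K (LinearMap.ker M.mulVecLin) := by
    have e1 := LinearMap.finrank_range_add_finrank_ker (Eᵀ * M).mulVecLin
    have e2 := LinearMap.finrank_range_add_finrank_ker M.mulVecLin
    rw [hsurj, finrank_top, Module.finrank_fintype_fun_eq_card] at e1
    rw [Matrix.rank] at hrk
    omega
  have hker : LinearMap.ker M.mulVecLin = LinearMap.ker (Eᵀ * M).mulVecLin :=
    Submodule.eq_of_le_of_finrank_le hle hfin
  have h2 : M * (1 - E * a⁻¹ * (Eᵀ * M)) = 0 := by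
    ext i j
    have h3 : (1 - E * a⁻¹ * (Eᵀ * M)).col j ∈ LinearMap.ker (Eᵀ * M).mulVecLin := by
      rw [LinearMap.mem_ker, mulVecLin_apply]
      ext k
      have := congrFun (congrFun h1 k) j
      rw [Matrix.mul_apply] at this
      exact this
    rw [← hker, LinearMap.mem_ker, mulVecLin_apply] at h3
    have := congrFun h3 i
    rw [Matrix.mul_apply]
    exact this
  rw [Matrix.mul_sub, Matrix.mul_one, sub_eq_zero] at h2
  rw [Matrix.mul_assoc, Matrix.mul_assoc M, ← Matrix.mul_assoc E]
  exact h2

end field

theorem eval_genMat {n : ℕ} (A : Fin 5 → Matrix (Fin n) (Fin n) ℂ) (z : Fin 5 → ℂ) :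
    (genMat A).map (MvPolynomial.eval z) = evMat A z := by
  ext i j
  rw [Matrix.map_apply, genMat, evMat, Matrix.sum_apply, Matrix.sum_apply, map_sum]
  refine Finset.sum_congr rfl fun k _ => ?_
  rw [Matrix.smul_apply, Matrix.smul_apply, smul_eq_mul, smul_eq_mul, map_mul, MvPolynomial.eval_X,
    Matrix.map_apply]
  simp

theorem sel_map {n : Type} [DecidableEq n] {I : Type} (f : I → n) (z : Fin 5 → ℂ) :
    (sel S f).map (MvPolynomial.eval z) = sel ℂ f := by
  ext i j
  simp only [sel, Matrix.map_apply, Matrix.submatrix_apply, Matrix.one_apply]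
  split_ifs <;> simp

theorem blk : BlkStmt := by
  classical
  intro n A hA x hx
  obtain ⟨L, L', D, hD⟩ :=
    Matrix.Pivot.exists_list_transvec_mul_mul_list_transvec_eq_diagonal (evMat A x)
  set U := (L.map TransvectionStruct.toMatrix).prod with hU
  set W := (L'.map TransvectionStruct.toMatrix).prod with hW
  have hUd : IsUnit U.det := by rw [hU, TransvectionStruct.det_toMatrix_prod]; exact isUnit_one
  have hWd : IsUnit W.det := by rw [hW, TransvectionStruct.det_toMatrix_prod]; exact isUnit_one
  have hcard : Fintype.card {i // D i ≠ 0} + 2 = n := by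
    rw [← Matrix.rank_diagonal, ← hD, Matrix.rank_mul_eq_left_of_isUnit_det _ _ hWd,
      Matrix.rank_mul_eq_right_of_isUnit_det _ _ hUd]
    exact hA.rk x hx
  have hrk : ∀ z : Fin 5 → ℂ, (U * evMat A z * W).rank ≤ Fintype.card {i // D i ≠ 0} := by
    intro z
    refine (Matrix.rank_mul_le_left _ _).trans ((Matrix.rank_mul_le_right _ _).trans ?_)
    by_cases hz : z = 0
    · subst hz
      have : evMat A 0 = 0 := by simp [evMat]
      rw [this, Matrix.rank_zero]
      exact Nat.zero_le _
    · have := hA.rk z hz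
      omega
  let f : {i // D i ≠ 0} → Fin n := Subtype.val
  let c : ℂ →+* S := MvPolynomial.C
  set A' : Matrix (Fin n) (Fin n) S := U.map c * genMat A * W.map c with hA'
  have hA'ev : ∀ z, A'.map (MvPolynomial.eval z) = U * evMat A z * W := by
    intro z
    rw [hA', Matrix.map_mul, Matrix.map_mul, eval_genMat, Matrix.map_map, Matrix.map_map]
    have : (MvPolynomial.eval z) ∘ c = id := by
      funext t
      exact MvPolynomial.eval_C t
    rw [this, Matrix.map_id, Matrix.map_id]
  set a : Matrix {i // D i ≠ 0} {i // D i ≠ 0} S := (sel S f)ᵀ * A' * sel S f with ha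
  have haev : ∀ z, a.map (MvPolynomial.eval z) =
      (sel ℂ f)ᵀ * (U * evMat A z * W) * sel ℂ f := by
    intro z
    rw [ha, Matrix.map_mul, Matrix.map_mul, hA'ev, Matrix.transpose_map, sel_map]
  have hdetev : ∀ z, MvPolynomial.eval z a.det =
      ((sel ℂ f)ᵀ * (U * evMat A z * W) * sel ℂ f).det := by
    intro z
    rw [← haev, RingHom.map_det]
    rfl
  have hpx : MvPolynomial.eval x a.det ≠ 0 := by
    rw [hdetev, hD]
    have : (sel ℂ f)ᵀ * diagonal D * sel ℂ f = diagonal (fun i : {i // D i ≠ 0} => D i.1) := by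
      ext i j
      rw [Matrix.mul_apply]
      have h1 : ∀ k, ((sel ℂ f)ᵀ * diagonal D) i k = if k = f i then D k else 0 := by
        intro k
        rw [Matrix.mul_diagonal, sel, Matrix.transpose_apply, Matrix.submatrix_apply,
          Matrix.one_apply]
        simp only [id]
        split_ifs <;> simp
      simp only [h1, ite_mul, zero_mul, Finset.sum_ite_eq', Finset.mem_univ, if_true]
      rw [sel, Matrix.submatrix_apply, Matrix.one_apply, Matrix.diagonal_apply]
      simp only [id, f, Subtype.ext_iff]
      split_ifs <;> simp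
    rw [this, Matrix.det_diagonal]
    exact Finset.prod_ne_zero_iff.2 fun i _ => i.2
  have hp : a.det ≠ 0 := by
    intro h
    rw [h, map_zero] at hpx
    exact hpx rfl
  have key : a.det • A' = A' * sel S f * a.adjugate * ((sel S f)ᵀ * A') := by
    rw [← sub_eq_zero]
    refine Matrix.ext fun i j => ?_
    rw [Matrix.zero_apply]
    have h1 : a.det * (a.det • A' - A' * sel S f * a.adjugate * ((sel S f)ᵀ * A')) i j = 0 := by
      apply MvPolynomial.funext
      intro z
      rw [map_mul, map_zero]
      by_cases hz : MvPolynomial.eval z a.det = 0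
      · rw [hz, zero_mul]
      · have h2 : (a.det • A' - A' * sel S f * a.adjugate * ((sel S f)ᵀ * A')).map
            (MvPolynomial.eval z) = 0 := by
          have h3 : (a.adjugate).map (MvPolynomial.eval z) =
              (a.map (MvPolynomial.eval z)).adjugate := by
            have := RingHom.map_adjugate (MvPolynomial.eval z) a
            simpa [RingHom.mapMatrix_apply] using this
          have h4 : (a.det • A').map (MvPolynomial.eval z) =
              (MvPolynomial.eval z a.det) • A'.map (MvPolynomial.eval z) := by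
            ext k l
            simp
          have h8 : (A' * sel S f).map (MvPolynomial.eval z) = U * evMat A z * W * sel ℂ f := by
            rw [Matrix.map_mul, hA'ev, sel_map]
          have h9 : ((sel S f)ᵀ * A').map (MvPolynomial.eval z) =
              (sel ℂ f)ᵀ * (U * evMat A z * W) := by
            rw [Matrix.map_mul, hA'ev, Matrix.transpose_map, sel_map]
          rw [Matrix.map_sub _ (fun u v => map_sub _ u v), h4,
            Matrix.map_mul (L := A' * sel S f * a.adjugate), Matrix.map_mul (L := A' * sel S f),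
            h3, h8, h9, hA'ev, haev]
          have h5 := schur (U * evMat A z * W) f (by rw [← hdetev]; exact hz) (hrk z)
          have h6 : ((sel ℂ f)ᵀ * (U * evMat A z * W) * sel ℂ f).adjugate =
              (MvPolynomial.eval z a.det) • ((sel ℂ f)ᵀ * (U * evMat A z * W) * sel ℂ f)⁻¹ := by
            rw [Matrix.inv_def, ← hdetev, smul_smul, Ring.inverse_eq_inv', mul_inv_cancel₀ hz,
              one_smul]
          rw [h6, Matrix.mul_smul, Matrix.smul_mul, ← h5, sub_self]
        have h7 := congrFun (congrFun h2 i) j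
        rw [Matrix.map_apply, Matrix.zero_apply] at h7
        rw [h7, mul_zero]
    exact (mul_eq_zero.1 h1).resolve_left hp
  refine ⟨a.det, W.map c * (sel S f * a.adjugate * (sel S f)ᵀ) * U.map c, hpx, ?_⟩
  have hcU : (U⁻¹).map c * U.map c = 1 := by
    rw [← Matrix.map_mul, Matrix.nonsing_inv_mul _ hUd]
    exact Matrix.map_one _ (map_zero _) (map_one _)
  have hcW : W.map c * (W⁻¹).map c = 1 := by
    rw [← Matrix.map_mul, Matrix.mul_nonsing_inv _ hWd]
    exact Matrix.map_one _ (map_zero _) (map_one _)
  have hgen : genMat A = (U⁻¹).map c * A' * (W⁻¹).map c := by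
    rw [hA']
    calc genMat A = ((U⁻¹).map c * U.map c) * genMat A * (W.map c * (W⁻¹).map c) := by
          rw [hcU, hcW, Matrix.one_mul, Matrix.mul_one]
      _ = _ := by simp only [Matrix.mul_assoc]
  calc genMat A * (W.map c * (sel S f * a.adjugate * (sel S f)ᵀ) * U.map c) * genMat A
      = (U⁻¹).map c * A' * ((W⁻¹).map c * W.map c) * (sel S f * a.adjugate * (sel S f)ᵀ) *
        (U.map c * (U⁻¹).map c) * A' * (W⁻¹).map c := by
        rw [hgen]
        simp only [Matrix.mul_assoc]
    _ = (U⁻¹).map c * (A' * sel S f * a.adjugate * ((sel S f)ᵀ * A')) * (W⁻¹).map c := by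
        have e1 : (W⁻¹).map c * W.map c = 1 := by
          rw [← Matrix.map_mul, Matrix.nonsing_inv_mul _ hWd]
          exact Matrix.map_one _ (map_zero _) (map_one _)
        have e2 : U.map c * (U⁻¹).map c = 1 := by
          rw [← Matrix.map_mul, Matrix.mul_nonsing_inv _ hUd]
          exact Matrix.map_one _ (map_zero _) (map_one _)
        rw [e1, e2]
        simp only [Matrix.mul_assoc, Matrix.mul_one]
    _ = a.det • genMat A := by
        rw [← key, Matrix.mul_smul, Matrix.smul_mul, ← hgen]

end Pool.Agent.SkewP4.H85
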